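import Mathlib

set_option autoImplicit false

namespace Pool.Agent.H25R3.Kerdock

open Finset

theorem sum_symmDiff_char2 {ι Q : Type*} [DecidableEq ι] [AddCommGroup Q]
    (h2 : ∀ q : Q, q + q = 0) (p : ι → Q) (s t : Finset ι) :
    ∑ i ∈ symmDiff s t, p i = ∑ i ∈ s, p i + ∑ i ∈ t, p i := by
  have h1 : ∑ i ∈ s, p i = ∑ i ∈ s \ t, p i + ∑ i ∈ s ∩ t, p i := by
    rw [← Finset.sum_sdiff (Finset.inter_subset_left : s ∩ t ⊆ s), Finset.sdiff_inter_self_left]
  have h3 : ∑ i ∈ t, p i = ∑ i ∈ t \ s, p i + ∑ i ∈ s ∩ t, p i := by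
    rw [← Finset.sum_sdiff (Finset.inter_subset_right : s ∩ t ⊆ t), Finset.sdiff_inter_self_right]
  have h4 : ∑ i ∈ symmDiff s t, p i = ∑ i ∈ s \ t, p i + ∑ i ∈ t \ s, p i := by
    have : symmDiff s t = (s \ t) ∪ (t \ s) := rfl
    rw [this, Finset.sum_union]
    exact disjoint_sdiff_sdiff
  rw [h4, h1, h3]
  have h5 := h2 (∑ i ∈ s ∩ t, p i)
  calc ∑ i ∈ s \ t, p i + ∑ i ∈ t \ s, p i
      = ∑ i ∈ s \ t, p i + ∑ i ∈ t \ s, p i + (∑ i ∈ s ∩ t, p i + ∑ i ∈ s ∩ t, p i) := by
        rw [h5, add_zero]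
    _ = _ := by abel

theorem four_pow_form (k : ℕ) (hk : 1 ≤ k) : ∃ s : ℕ, 4 ^ k = 3 * s + 1 ∧ Odd s := by
  induction k, hk using Nat.le_induction with
  | base => exact ⟨1, by norm_num, by decide⟩
  | succ k _ ih =>
    obtain ⟨s, hs, _⟩ := ih
    refine ⟨4 * s + 1, ?_, ⟨2 * s, by ring⟩⟩
    rw [pow_succ, hs]; ring

theorem lemA {ι Q : Type*} [Fintype ι] [DecidableEq ι] [AddCommGroup Q] [Fintype Q] [DecidableEq Q]
    (h2 : ∀ q : Q, q + q = 0) (k : ℕ) (hk : 2 ≤ k) (hι : Fintype.card ι = 4 ^ k)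
    (hQ : 2 * Fintype.card Q ≤ (4 ^ k) ^ 2) (p : ι → Q)
    (hp2 : ∀ t : Finset ι, t.card = 2 → ∑ i ∈ t, p i ≠ 0)
    (hp4 : ∀ t : Finset ι, t.card = 4 → ∑ i ∈ t, p i ≠ 0) : False := by
  obtain ⟨s, hs, hsodd⟩ := four_pow_form k (by omega)
  set n : ℕ := 4 ^ k with hn
  have hn16 : 16 ≤ n := by
    have : 4 ^ 2 ≤ 4 ^ k := Nat.pow_le_pow_right (by norm_num) hk
    simpa using this
  set T : Q → Finset (Finset ι) := fun v =>
    (Finset.powersetCard 3 (Finset.univ : Finset ι)).filter (fun t => ∑ i ∈ t, p i = v) with hT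
  have hTmem : ∀ v t, t ∈ T v ↔ t.card = 3 ∧ ∑ i ∈ t, p i = v := by
    intro v t
    simp [hT, Finset.mem_powersetCard]
  -- injectivity
  have hpinj : Function.Injective p := by
    intro i j hij
    by_contra hne
    refine hp2 {i, j} (Finset.card_pair hne) ?_
    rw [Finset.sum_pair hne, hij, h2]
  have hdisj : ∀ v, ∀ t ∈ T v, ∀ t' ∈ T v, t ≠ t' → Disjoint t t' := by
    intro v t ht t' ht' hne
    rw [hTmem] at ht ht'
    by_contra hnd
    have hint : 0 < (t ∩ t').card := by
      rw [Finset.card_pos]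
      exact Finset.not_disjoint_iff_nonempty_inter.mp hnd
    have hlt : (t ∩ t').card < 3 := by
      have hle : (t ∩ t').card ≤ t.card := Finset.card_le_card Finset.inter_subset_left
      rcases Nat.lt_or_ge (t ∩ t').card 3 with h | h
      · exact h
      · exfalso
        have h3 : t ∩ t' = t := Finset.eq_of_subset_of_card_le Finset.inter_subset_left (by omega)
        have h4 : t ∩ t' = t' := Finset.eq_of_subset_of_card_le Finset.inter_subset_right (by omega)
        exact hne (h3.symm.trans h4)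
    have hsum : ∑ i ∈ symmDiff t t', p i = 0 := by
      rw [sum_symmDiff_char2 h2, ht.2, ht'.2, h2]
    have hcard : (symmDiff t t').card = 6 - 2 * (t ∩ t').card := by
      have h5 : symmDiff t t' = (t \ t') ∪ (t' \ t) := rfl
      rw [h5, Finset.card_union_of_disjoint disjoint_sdiff_sdiff]
      have h6 := Finset.card_sdiff_add_card_inter t t'
      have h7 := Finset.card_sdiff_add_card_inter t' t
      rw [Finset.inter_comm t' t] at h7
      omega
    rcases (by omega : (t ∩ t').card = 1 ∨ (t ∩ t').card = 2) with h | h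
    · exact hp4 _ (by omega) hsum
    · exact hp2 _ (by omega) hsum
  have hU : ∀ v, ((T v).biUnion id).card = 3 * (T v).card := by
    intro v
    rw [Finset.card_biUnion]
    · rw [Finset.sum_congr rfl (g := fun _ => 3), Finset.sum_const, smul_eq_mul, mul_comm]
      intro t ht
      exact ((hTmem v t).1 ht).1
    · intro t ht t' ht' hne
      exact hdisj v t ht t' ht' hne
  have hTcard : ∀ v, (T v).card ≤ s := by
    intro v
    have h3 : ((T v).biUnion id).card ≤ Fintype.card ι := Finset.card_le_univ _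
    rw [hU, hι] at h3
    omega
  have hrange : ∀ j, T (p j) = ∅ := by
    intro j
    rw [Finset.eq_empty_iff_forall_notMem]
    intro t ht
    rw [hTmem] at ht
    by_cases hj : j ∈ t
    · refine hp2 (t.erase j) ?_ ?_
      · rw [Finset.card_erase_of_mem hj]; omega
      · have h3 := Finset.sum_erase_add t p hj
        rw [ht.2] at h3
        have h4 : ∑ i ∈ t.erase j, p i + p j = 0 + p j := by rw [h3, zero_add]
        exact add_right_cancel h4
    · refine hp4 (insert j t) ?_ ?_
      · rw [Finset.card_insert_of_notMem hj]; omega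
      · rw [Finset.sum_insert hj, ht.2, h2]
  set R : Finset Q := Finset.univ.image p with hR
  have hRcard : R.card = n := by
    rw [hR, Finset.card_image_of_injective _ hpinj, Finset.card_univ, hι]
  have hRc : Rᶜ.card = Fintype.card Q - n := by rw [Finset.card_compl, hRcard]
  have hnQ : n ≤ Fintype.card Q := by rw [← hRcard]; exact Finset.card_le_univ _
  have htot : (Nat.choose n 3) = ∑ v ∈ Rᶜ, (T v).card := by
    have h3 : (Finset.powersetCard 3 (Finset.univ : Finset ι)).card = Nat.choose n 3 := by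
      rw [Finset.card_powersetCard, Finset.card_univ, hι]
    rw [← h3, Finset.card_eq_sum_card_fiberwise (f := fun t => ∑ i ∈ t, p i) (t := Finset.univ)
      (fun _ _ => Finset.mem_coe.2 (Finset.mem_univ _))]
    rw [← Finset.sum_add_sum_compl R]
    have h4 : ∑ v ∈ R, (((Finset.powersetCard 3 (Finset.univ : Finset ι))).filter
        (fun t => ∑ i ∈ t, p i = v)).card = 0 := by
      refine Finset.sum_eq_zero ?_
      intro v hv
      rw [hR, Finset.mem_image] at hv
      obtain ⟨j, _, rfl⟩ := hv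
      have := hrange j
      simp only [hT] at this
      rw [this, Finset.card_empty]
    rw [h4, zero_add]
  have hchoose : Nat.choose n 3 * 6 = n * (3 * s) * (n - 2) := by
    have h3 := Nat.descFactorial_eq_factorial_mul_choose n 3
    have h4 : n.descFactorial 3 = (n - 2) * ((n - 1) * n) := by
      simp [Nat.descFactorial_succ]
    rw [h4] at h3
    have h5 : n - 1 = 3 * s := by omega
    rw [h5] at h3
    have h6 : (3 : ℕ).factorial = 6 := by decide
    rw [h6] at h3
    linarith
  have hspos : 0 < s := hsodd.pos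
  have hle : ∑ v ∈ Rᶜ, (T v).card ≤ ∑ v ∈ Rᶜ, s := Finset.sum_le_sum (fun v _ => hTcard v)
  have hRcs : ∑ v ∈ Rᶜ, s = Rᶜ.card * s := by rw [Finset.sum_const, smul_eq_mul]
  have hub : 2 * Rᶜ.card ≤ n * (n - 2) := by
    rw [hRc]
    have h3 : n * (n - 2) = n ^ 2 - 2 * n := by
      rw [Nat.mul_sub, pow_two, mul_comm n 2]
    rw [h3]
    omega
  have heq : ∑ v ∈ Rᶜ, (T v).card = ∑ v ∈ Rᶜ, s := by
    apply le_antisymm hle
    rw [hRcs, ← htot]
    have h3 : (Rᶜ.card * s) * 6 ≤ Nat.choose n 3 * 6 := by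
      rw [hchoose]
      calc Rᶜ.card * s * 6 = (2 * Rᶜ.card) * (3 * s) := by ring
        _ ≤ (n * (n - 2)) * (3 * s) := Nat.mul_le_mul_right _ hub
        _ = _ := by ring
    omega
  have hlb : n * (n - 2) ≤ 2 * Rᶜ.card := by
    have h3 : Nat.choose n 3 = Rᶜ.card * s := by rw [htot, heq, hRcs]
    have h4 : (2 * Rᶜ.card) * (3 * s) = (n * (n - 2)) * (3 * s) := by
      have := hchoose
      rw [h3] at this
      linarith
    have h5 := Nat.eq_of_mul_eq_mul_right (by omega) h4
    omega
  have hall : ∀ v ∈ Rᶜ, (T v).card = s :=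
    (Finset.sum_eq_sum_iff_of_le (fun v _ => hTcard v)).1 heq
  set σ : Q := ∑ i, p i with hσ
  have hmap : ∀ v ∈ Rᶜ, σ + v ∈ R := by
    intro v hv
    have h3 := hall v hv
    have h4 := hU v
    rw [h3] at h4
    have h5 : (((T v).biUnion id)ᶜ).card = 1 := by
      rw [Finset.card_compl, h4, hι]; omega
    rw [Finset.card_eq_one] at h5
    obtain ⟨i, hi⟩ := h5
    have h6 : ∑ j ∈ (T v).biUnion id, p j = s • v := by
      rw [Finset.sum_biUnion]
      · rw [Finset.sum_congr rfl (g := fun _ => v), Finset.sum_const, h3]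
        intro t ht
        exact ((hTmem v t).1 ht).2
      · intro t ht t' ht' hne
        exact hdisj v t ht t' ht' hne
    have h7 : s • v = v := by
      obtain ⟨w, hw⟩ := hsodd
      rw [hw, add_smul, mul_comm, mul_smul, two_smul, h2, smul_zero, zero_add, one_smul]
    have h8 : σ = v + p i := by
      rw [hσ, ← Finset.sum_add_sum_compl ((T v).biUnion id), h6, h7, hi, Finset.sum_singleton]
    rw [h8]
    have h9 : v + p i + v = p i := by
      rw [add_comm v (p i), add_assoc, h2, add_zero]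
    rw [h9, hR]
    exact Finset.mem_image_of_mem _ (Finset.mem_univ _)
  have hfin : Rᶜ.card ≤ R.card :=
    Finset.card_le_card_of_injOn (fun v => σ + v) hmap (fun a _ b _ h => add_left_cancel h)
  rw [hRcard] at hfin
  have h10 : n * (n - 2) ≤ 2 * n := by omega
  have h11 : n * (n - 2) ≥ n * 14 := Nat.mul_le_mul_left _ (by omega)
  omega

end Pool.Agent.H25R3.Kerdock
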