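import Mathlib

set_option autoImplicit false

namespace Pool.Agent.H25R3.Kerdock

/-- The polynomial deciding step B. -/
def GG (r t : ℤ) : ℤ :=
  -((r ^ 2 + r - 2 * t) * (r ^ 2 - r - 2 * t) ^ 2 * (r ^ 2 - r - 4 * t))
    - r ^ 2 * (r ^ 2 - 1) * ((r ^ 2 + r) * (r ^ 2 + r + 2 * t) - 2 * (r ^ 2) ^ 2)

theorem GG_pos_1 (a : ℤ) (ha : 0 ≤ a) : 0 < GG (8 + a) 1 := by
  have h : GG (8 + a) 1 = 933408 + 790952 * a ^ 1 + 274684 * a ^ 2 + 50152 * a ^ 3 + 5086 * a ^ 4 + 272 * a ^ 5 + 6 * a ^ 6 := by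
    unfold GG; ring
  rw [h]; positivity

theorem GG_pos_2 (a : ℤ) (ha : 0 ≤ a) : 0 < GG (8 + a) 2 := by
  have h : GG (8 + a) 2 = 2141184 + 1841216 * a ^ 1 + 645712 * a ^ 2 + 118480 * a ^ 3 + 12018 * a ^ 4 + 640 * a ^ 5 + 14 * a ^ 6 := by
    unfold GG; ring
  rw [h]; positivity

theorem GG_pos_3 (a : ℤ) (ha : 0 ≤ a) : 0 < GG (8 + a) 3 := by
  have h : GG (8 + a) 3 = 3126432 + 2766904 * a ^ 1 + 991308 * a ^ 2 + 184568 * a ^ 3 + 18878 * a ^ 4 + 1008 * a ^ 5 + 22 * a ^ 6 := by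
    unfold GG; ring
  rw [h]; positivity

theorem GG_pos_4 (a : ℤ) (ha : 0 ≤ a) : 0 < GG (8 + a) 4 := by
  have h : GG (8 + a) 4 = 3907584 + 3573248 * a ^ 1 + 1311808 * a ^ 2 + 248416 * a ^ 3 + 25666 * a ^ 4 + 1376 * a ^ 5 + 30 * a ^ 6 := by
    unfold GG; ring
  rw [h]; positivity

theorem GG_pos_5 (a : ℤ) (ha : 0 ≤ a) : 0 < GG (8 + a) 5 := by
  have h : GG (8 + a) 5 = 4502304 + 4265480 * a ^ 1 + 1607548 * a ^ 2 + 310024 * a ^ 3 + 32382 * a ^ 4 + 1744 * a ^ 5 + 38 * a ^ 6 := by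
    unfold GG; ring
  rw [h]; positivity

theorem GG_pos_6 (a : ℤ) (ha : 0 ≤ a) : 0 < GG (8 + a) 6 := by
  have h : GG (8 + a) 6 = 4927488 + 4848832 * a ^ 1 + 1878864 * a ^ 2 + 369392 * a ^ 3 + 39026 * a ^ 4 + 2112 * a ^ 5 + 46 * a ^ 6 := by
    unfold GG; ring
  rw [h]; positivity

theorem GG_pos_7 (a : ℤ) (ha : 0 ≤ a) : 0 < GG (8 + a) 7 := by
  have h : GG (8 + a) 7 = 5199264 + 5328536 * a ^ 1 + 2126092 * a ^ 2 + 426520 * a ^ 3 + 45598 * a ^ 4 + 2480 * a ^ 5 + 54 * a ^ 6 := by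
    unfold GG; ring
  rw [h]; positivity

theorem GG_pos_gen (a b : ℤ) (ha : 0 ≤ a) (hb : 0 ≤ b) : 0 < GG (9 + a + b) (8 + b) := by
  have h : GG (9 + a + b) (8 + b) = 13928800 + 12751964 * b ^ 1 + 4960934 * b ^ 2 + 1064904 * b ^ 3 + 136400 * b ^ 4 + 10436 * b ^ 5 + 442 * b ^ 6 + 8 * b ^ 7 + 12076188 * a ^ 1 + 9217876 * a ^ 1 * b ^ 1 + 2916248 * a ^ 1 * b ^ 2 + 489880 * a ^ 1 * b ^ 3 + 46116 * a ^ 1 * b ^ 4 + 2308 * a ^ 1 * b ^ 5 + 48 * a ^ 1 * b ^ 6 + 4135790 * a ^ 2 + 2574160 * a ^ 2 * b ^ 1 + 638716 * a ^ 2 * b ^ 2 + 79008 * a ^ 2 * b ^ 3 + 4874 * a ^ 2 * b ^ 4 + 120 * a ^ 2 * b ^ 5 + 719520 * a ^ 3 + 352536 * a ^ 3 * b ^ 1 + 64632 * a ^ 3 * b ^ 2 + 5256 * a ^ 3 * b ^ 3 + 160 * a ^ 3 * b ^ 4 + 67268 * a ^ 4 + 24524 * a ^ 4 * b ^ 1 + 2974 * a ^ 4 * b ^ 2 + 120 * a ^ 4 * b ^ 3 + 3220 * a ^ 5 + 788 *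 a ^ 5 * b ^ 1 + 48 * a ^ 5 * b ^ 2 + 62 * a ^ 6 + 8 * a ^ 6 * b ^ 1 := by
    unfold GG; ring
  rw [h]; positivity

theorem GG_pos (r t : ℤ) (hr : 8 ≤ r) (h1 : 1 ≤ t) (h2 : t ≤ r - 1) : 0 < GG r t := by
  rcases lt_or_ge t 8 with h | h
  · obtain ⟨a, rfl⟩ : ∃ a, r = 8 + a := ⟨r - 8, by ring⟩
    have ha : 0 ≤ a := by linarith
    interval_cases t
    · exact GG_pos_1 a ha
    · exact GG_pos_2 a ha
    · exact GG_pos_3 a ha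
    · exact GG_pos_4 a ha
    · exact GG_pos_5 a ha
    · exact GG_pos_6 a ha
    · exact GG_pos_7 a ha
  · obtain ⟨b, rfl⟩ : ∃ b, t = 8 + b := ⟨t - 8, by ring⟩
    obtain ⟨a, rfl⟩ : ∃ a, r = 9 + a + b := ⟨r - 9 - b, by ring⟩
    exact GG_pos_gen a b (by linarith) (by linarith)

end Pool.Agent.H25R3.Kerdock
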