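import Mathlib
import Pool.Agent.H25R3.Kerdock.LemA
import Pool.Agent.H25R3.Kerdock.Poly

set_option autoImplicit false

namespace Pool.Agent.H25R3.Kerdock

open Finset

/-- The additive character of `ZMod 2` with integer values. -/
def chi (a : ZMod 2) : ℤ := if a = 0 then 1 else -1

theorem chi_add (a b : ZMod 2) : chi (a + b) = chi a * chi b := by
  revert a b; decide

theorem chi_zero : chi 0 = 1 := rfl

theorem chi_one : chi 1 = -1 := by decide

theorem chi_cases (a : ZMod 2) : chi a = 1 ∨ chi a = -1 := by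
  revert a; decide

variable {V : Type*} [AddCommGroup V] [Module (ZMod 2) V] [Fintype V]

theorem sum_chi_eq_zero (φ : V →ₗ[ZMod 2] ZMod 2) (hφ : φ ≠ 0) : ∑ c, chi (φ c) = 0 := by
  obtain ⟨c1, hc1⟩ : ∃ c1, φ c1 ≠ 0 := by
    by_contra h
    push Not at h
    exact hφ (LinearMap.ext (fun c => by simpa using h c))
  have h1 : φ c1 = 1 := by
    have : ∀ a : ZMod 2, a ≠ 0 → a = 1 := by decide
    exact this _ hc1
  have h2 : ∑ c, chi (φ c) = ∑ c, chi (φ (c + c1)) :=
    (Equiv.sum_comp (Equiv.addRight c1) (fun c => chi (φ c))).symm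
  have h3 : ∑ c, chi (φ (c + c1)) = - ∑ c, chi (φ c) := by
    rw [← Finset.sum_neg_distrib]
    refine Finset.sum_congr rfl ?_
    intro c _
    rw [map_add, h1, chi_add, chi_one]; ring
  rw [h3] at h2
  linarith

open Classical in
/-- number of zero members of a family -/
noncomputable def Mz {α : Type*} [Fintype α] (q : α → (V →ₗ[ZMod 2] ZMod 2)) : ℤ :=
  ∑ a, if q a = 0 then (1 : ℤ) else 0

/-- character sum of a family -/
def SS {α : Type*} [Fintype α] (q : α → (V →ₗ[ZMod 2] ZMod 2)) (c : V) : ℤ :=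
  ∑ a, chi (q a c)

theorem sum_SS {α : Type*} [Fintype α] (q : α → (V →ₗ[ZMod 2] ZMod 2)) :
    ∑ c, SS q c = (Fintype.card V : ℤ) * Mz q := by
  classical
  unfold SS Mz
  rw [Finset.sum_comm, Finset.mul_sum]
  refine Finset.sum_congr rfl ?_
  intro a _
  by_cases h : q a = 0
  · simp [h, chi_zero]
  · rw [sum_chi_eq_zero _ h]; simp [h]

/-- the family of sums -/
def addF {α β : Type*} (q : α → (V →ₗ[ZMod 2] ZMod 2)) (p : β → (V →ₗ[ZMod 2] ZMod 2)) :
    α × β → (V →ₗ[ZMod 2] ZMod 2) := fun x => q x.1 + p x.2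

omit [Fintype V] in
theorem SS_addF {α β : Type*} [Fintype α] [Fintype β] (q : α → (V →ₗ[ZMod 2] ZMod 2))
    (p : β → (V →ₗ[ZMod 2] ZMod 2)) (c : V) : SS (addF q p) c = SS q c * SS p c := by
  unfold SS addF
  rw [Finset.sum_mul_sum, Fintype.sum_prod_type]
  refine Finset.sum_congr rfl (fun a _ => Finset.sum_congr rfl (fun b _ => ?_))
  rw [LinearMap.add_apply, chi_add]

omit [Fintype V] in
theorem dual_add_self (φ : V →ₗ[ZMod 2] ZMod 2) : φ + φ = 0 := by
  ext c
  have : ∀ a : ZMod 2, a + a = 0 := by decide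
  simp [this]

theorem Mz_nonneg {α : Type*} [Fintype α] (q : α → (V →ₗ[ZMod 2] ZMod 2)) : 0 ≤ Mz q := by
  classical
  unfold Mz
  refine Finset.sum_nonneg (fun a _ => ?_)
  split_ifs <;> norm_num

theorem Mz2_ge {α : Type*} [Fintype α] (p : α → (V →ₗ[ZMod 2] ZMod 2)) :
    (Fintype.card α : ℤ) ≤ Mz (addF p p) := by
  classical
  unfold Mz
  rw [Fintype.sum_prod_type]
  have h1 : (Fintype.card α : ℤ) = ∑ i : α, (1 : ℤ) := by simp
  rw [h1]
  refine Finset.sum_le_sum (fun i _ => ?_)
  have h2 : (1 : ℤ) = if addF p p (i, i) = 0 then (1 : ℤ) else 0 := by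
    rw [if_pos]; exact dual_add_self _
  exact le_trans (le_of_eq h2)
    (Finset.single_le_sum (f := fun j => if addF p p (i, j) = 0 then (1 : ℤ) else 0)
    (fun j _ => by split_ifs <;> norm_num) (Finset.mem_univ i))

open Classical in
/-- the pointwise lower bound for the fourth moment -/
noncomputable def lowb {α : Type*} (p : α → (V →ₗ[ZMod 2] ZMod 2)) (x y : α × α) : ℤ :=
  (if addF p p x = 0 then (1 : ℤ) else 0) * (if addF p p y = 0 then (1 : ℤ) else 0)
    + (if y = x then (1 : ℤ) else 0) * (1 - (if addF p p x = 0 then (1 : ℤ) else 0))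
    + (if y = x.swap then (1 : ℤ) else 0) * (1 - (if addF p p x = 0 then (1 : ℤ) else 0))

open Classical in
theorem lowb_le {α : Type*} (p : α → (V →ₗ[ZMod 2] ZMod 2)) (x y : α × α) :
    lowb p x y ≤ if addF (addF p p) (addF p p) (x, y) = 0 then (1 : ℤ) else 0 := by
  unfold lowb
  by_cases hx : addF p p x = 0
  · rw [if_pos hx]
    have h1 : addF (addF p p) (addF p p) (x, y) = addF p p y := by
      show addF p p x + addF p p y = _
      rw [hx, zero_add]
    rw [h1]
    simp
  · rw [if_neg hx]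
    have hne : x ≠ x.swap := by
      intro h
      apply hx
      have h1 : x.1 = x.2 := by
        have := congrArg Prod.fst h
        simpa using this
      show p x.1 + p x.2 = 0
      rw [h1]; exact dual_add_self _
    by_cases hy : y = x
    · have h2 : addF (addF p p) (addF p p) (x, y) = 0 := by
        rw [hy]; exact dual_add_self _
      have h3 : ¬ (y = x.swap) := by rw [hy]; exact hne
      rw [if_pos h2, if_pos hy, if_neg h3]; simp
    · by_cases hy2 : y = x.swap
      · have h2 : addF (addF p p) (addF p p) (x, y) = 0 := by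
          rw [hy2]
          show (p x.1 + p x.2) + (p x.2 + p x.1) = 0
          rw [add_comm (p x.2) (p x.1)]; exact dual_add_self _
        rw [if_pos h2, if_neg hy, if_pos hy2]; simp
      · rw [if_neg hy, if_neg hy2]
        simp only [zero_mul, add_zero]
        split_ifs <;> norm_num

theorem sum_lowb {α : Type*} [Fintype α] (p : α → (V →ₗ[ZMod 2] ZMod 2)) :
    ∑ x, ∑ y, lowb p x y
      = Mz (addF p p) ^ 2 + 2 * ((Fintype.card α : ℤ) ^ 2 - Mz (addF p p)) := by
  classical
  have h0 : ∀ x : α × α, ∑ y, lowb p x y =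
      (if addF p p x = 0 then (1 : ℤ) else 0) * Mz (addF p p)
      + 2 * (1 - (if addF p p x = 0 then (1 : ℤ) else 0)) := by
    intro x
    unfold lowb
    rw [Finset.sum_add_distrib, Finset.sum_add_distrib, ← Finset.mul_sum, ← Finset.sum_mul,
      ← Finset.sum_mul, Finset.sum_ite_eq' Finset.univ x (fun _ => (1 : ℤ)),
      Finset.sum_ite_eq' Finset.univ x.swap (fun _ => (1 : ℤ)),
      if_pos (Finset.mem_univ _), if_pos (Finset.mem_univ _)]
    unfold Mz
    ring
  rw [Finset.sum_congr rfl (fun x _ => h0 x), Finset.sum_add_distrib, ← Finset.sum_mul,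
    ← Finset.mul_sum, Finset.sum_sub_distrib]
  have h1 : ∑ x : α × α, (if addF p p x = 0 then (1 : ℤ) else 0) = Mz (addF p p) := rfl
  rw [h1]
  have h2 : ∑ x : α × α, (1 : ℤ) = (Fintype.card α : ℤ) ^ 2 := by
    simp [pow_two]
  rw [h2]
  ring

theorem Mz4_ge {α : Type*} [Fintype α] (p : α → (V →ₗ[ZMod 2] ZMod 2)) :
    Mz (addF p p) ^ 2 + 2 * ((Fintype.card α : ℤ) ^ 2 - Mz (addF p p))
      ≤ Mz (addF (addF p p) (addF p p)) := by
  classical
  rw [← sum_lowb]
  have h1 : Mz (addF (addF p p) (addF p p)) = ∑ x : α × α, ∑ y : α × α,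
      (if addF (addF p p) (addF p p) (x, y) = 0 then (1 : ℤ) else 0) := by
    unfold Mz
    exact Fintype.sum_prod_type
      (fun z => if addF (addF p p) (addF p p) z = 0 then (1 : ℤ) else 0)
  rw [h1]
  exact Finset.sum_le_sum (fun x _ => Finset.sum_le_sum (fun y _ => lowb_le p x y))

open Classical in
theorem lowb_eq_of_eq {α : Type*} [Fintype α] (p : α → (V →ₗ[ZMod 2] ZMod 2))
    (h : Mz (addF (addF p p) (addF p p)) ≤
      Mz (addF p p) ^ 2 + 2 * ((Fintype.card α : ℤ) ^ 2 - Mz (addF p p))) (x y : α × α) :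
    lowb p x y = if addF (addF p p) (addF p p) (x, y) = 0 then (1 : ℤ) else 0 := by
  rw [← sum_lowb] at h
  have h1 : ∑ x, ∑ y, lowb p x y = ∑ x : α × α, ∑ y : α × α,
      (if addF (addF p p) (addF p p) (x, y) = 0 then (1 : ℤ) else 0) := by
    apply le_antisymm
    · exact Finset.sum_le_sum (fun x _ => Finset.sum_le_sum (fun y _ => lowb_le p x y))
    · refine le_trans (le_of_eq ?_) h
      unfold Mz
      exact (Fintype.sum_prod_type
        (fun z => if addF (addF p p) (addF p p) z = 0 then (1 : ℤ) else 0)).symm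
  have h2 := (Finset.sum_eq_sum_iff_of_le (fun x _ =>
    Finset.sum_le_sum (fun y _ => lowb_le p x y))).1 h1 x (Finset.mem_univ _)
  exact (Finset.sum_eq_sum_iff_of_le (fun y _ => lowb_le p x y)).1 h2 y (Finset.mem_univ _)

open Classical in
theorem Mz2_inj {α : Type*} [Fintype α] (p : α → (V →ₗ[ZMod 2] ZMod 2))
    (h : Mz (addF p p) ≤ (Fintype.card α : ℤ)) : Function.Injective p := by
  intro i j hij
  by_contra hne
  have h1 : (Fintype.card α : ℤ) < Mz (addF p p) := by
    unfold Mz
    rw [Fintype.sum_prod_type]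
    have h1 : (Fintype.card α : ℤ) = ∑ i : α, (1 : ℤ) := by simp
    rw [h1]
    have key : ∀ k : α, (1 : ℤ) ≤ ∑ j, if addF p p (k, j) = 0 then (1 : ℤ) else 0 := by
      intro k
      have h2 : (1 : ℤ) = if addF p p (k, k) = 0 then (1 : ℤ) else 0 := by
        rw [if_pos]; exact dual_add_self _
      exact le_trans (le_of_eq h2)
        (Finset.single_le_sum (f := fun j => if addF p p (k, j) = 0 then (1 : ℤ) else 0)
        (fun j _ => by split_ifs <;> norm_num) (Finset.mem_univ k))
    refine Finset.sum_lt_sum (fun k _ => key k) ⟨i, Finset.mem_univ _, ?_⟩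
    have h3 : (2 : ℤ) = ∑ k ∈ ({i, j} : Finset α), if addF p p (i, k) = 0 then (1 : ℤ) else 0 := by
      rw [Finset.sum_pair hne, if_pos, if_pos]
      · norm_num
      · show p i + p j = 0
        rw [hij]; exact dual_add_self _
      · exact dual_add_self _
    have h4 : ∑ k ∈ ({i, j} : Finset α), (if addF p p (i, k) = 0 then (1 : ℤ) else 0)
        ≤ ∑ k, if addF p p (i, k) = 0 then (1 : ℤ) else 0 :=
      Finset.sum_le_sum_of_subset_of_nonneg (Finset.subset_univ _)
        (fun j _ _ => by split_ifs <;> norm_num)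
    linarith
  omega

end Pool.Agent.H25R3.Kerdock
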