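import Mathlib
import Pool.Agent.H25R3.Kerdock.Mom

set_option autoImplicit false

namespace Pool.Agent.H25R3.Kerdock

open Finset

variable {V ι : Type*} [AddCommGroup V] [Module (ZMod 2) V] [Fintype V] [Fintype ι]

theorem chi_formula (a : ZMod 2) : chi a = 2 * (if a = 0 then 1 else 0) - 1 := by
  revert a; decide

omit [Fintype V] in
theorem add_self_V (x : V) : x + x = 0 := by
  have h : (2 : ZMod 2) • x = x + x := two_smul _ _
  have h2 : (2 : ZMod 2) = 0 := by decide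
  rw [← h, h2, zero_smul]

omit [Fintype V] in
theorem SS_zero (p : ι → (V →ₗ[ZMod 2] ZMod 2)) : SS p 0 = Fintype.card ι := by
  unfold SS
  simp [chi_zero]

omit [Fintype V] in
theorem SS_add_ge (p : ι → (V →ₗ[ZMod 2] ZMod 2)) (c c0 : V) :
    -((Fintype.card ι : ℤ) + SS p c0) ≤ SS p c + SS p (c + c0) := by
  have h1 : (Fintype.card ι : ℤ) = ∑ i : ι, (1 : ℤ) := by simp
  rw [h1]
  unfold SS
  rw [← Finset.sum_add_distrib, ← Finset.sum_add_distrib, ← Finset.sum_neg_distrib]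
  refine Finset.sum_le_sum (fun i _ => ?_)
  rw [map_add, chi_add]
  rcases chi_cases (p i c) with h | h <;> rcases chi_cases (p i c0) with h' | h' <;>
    rw [h, h'] <;> norm_num

/-- power sums -/
theorem pow_sums (n : ℤ) (hV : (Fintype.card V : ℤ) = n ^ 2)
    (p : ι → (V →ₗ[ZMod 2] ZMod 2)) (hp0 : ∀ i, p i ≠ 0) :
    (∑ c, SS p c = 0) ∧ (∑ c, SS p c ^ 2 = n ^ 2 * Mz (addF p p)) ∧
    (∑ c, SS p c ^ 3 = n ^ 2 * Mz (addF (addF p p) p)) ∧
    (∑ c, SS p c ^ 4 = n ^ 2 * Mz (addF (addF p p) (addF p p))) := by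
  classical
  refine ⟨?_, ?_, ?_, ?_⟩
  · rw [sum_SS]
    have : Mz p = 0 := by
      unfold Mz
      refine Finset.sum_eq_zero (fun i _ => ?_)
      rw [if_neg (hp0 i)]
    rw [this, mul_zero]
  · rw [← hV, ← sum_SS]
    refine Finset.sum_congr rfl (fun c _ => ?_)
    rw [SS_addF]; ring
  · rw [← hV, ← sum_SS]
    refine Finset.sum_congr rfl (fun c _ => ?_)
    rw [SS_addF, SS_addF]; ring
  · rw [← hV, ← sum_SS]
    refine Finset.sum_congr rfl (fun c _ => ?_)
    rw [SS_addF, SS_addF]; ring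

open Classical in
theorem lemM (r : ℤ) (hr : 8 ≤ r) (hι : (Fintype.card ι : ℤ) = r ^ 2)
    (hV : (Fintype.card V : ℤ) = (r ^ 2) ^ 2)
    (p : ι → (V →ₗ[ZMod 2] ZMod 2)) (hp0 : ∀ i, p i ≠ 0) (K : ℤ) (hK : 0 ≤ K) :
    ∑ c ∈ (Finset.univ : Finset V).erase 0, (r - SS p c) * (SS p c + r) ^ 2 * (SS p c + K)
      ≤ r ^ 2 * (r ^ 2 - 1) * ((r ^ 2 + r) * (r ^ 2 + K) - 2 * (r ^ 2) ^ 2) := by
  obtain ⟨h1, h2, h3, h4⟩ := pow_sums (r ^ 2) hV p hp0
  have hM3 := Mz_nonneg (addF (addF p p) p)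
  have hM2 := Mz2_ge p
  have hM4 := Mz4_ge p
  set M2 := Mz (addF p p)
  set M3 := Mz (addF (addF p p) p)
  set M4 := Mz (addF (addF p p) (addF p p))
  rw [hι] at hM2 hM4
  have hsum : ∑ c : V, (r - SS p c) * (SS p c + r) ^ 2 * (SS p c + K)
      = (r ^ 2) ^ 2 * (- M4 - (r + K) * M3 + (r ^ 2 - r * K) * M2 + r ^ 3 * K) := by
    have e1 : ∀ c : V, (r - SS p c) * (SS p c + r) ^ 2 * (SS p c + K)
        = - SS p c ^ 4 - (r + K) * SS p c ^ 3 + (r ^ 2 - r * K) * SS p c ^ 2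
          + r ^ 2 * (r + K) * SS p c + r ^ 3 * K := by intro c; ring
    rw [Finset.sum_congr rfl (fun c _ => e1 c), Finset.sum_add_distrib, Finset.sum_add_distrib,
      Finset.sum_add_distrib, Finset.sum_sub_distrib, Finset.sum_neg_distrib, ← Finset.mul_sum,
      ← Finset.mul_sum, ← Finset.mul_sum, h1, h2, h3, h4, Finset.sum_const, Finset.card_univ,
      nsmul_eq_mul, hV]
    ring
  have hsplit := Finset.add_sum_erase (Finset.univ : Finset V)
    (fun c => (r - SS p c) * (SS p c + r) ^ 2 * (SS p c + K)) (Finset.mem_univ 0)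
  simp only [SS_zero, hι] at hsplit
  rw [hsum] at hsplit
  have hbr : - M4 - (r + K) * M3 + (r ^ 2 - r * K) * M2 + r ^ 3 * K
      ≤ - 2 * (r ^ 2) ^ 2 + 2 * r ^ 2 := by
    have a1 : 0 ≤ (r + K) * M3 := mul_nonneg (by linarith) hM3
    have hr2 : 64 ≤ r ^ 2 := by nlinarith
    have a2 : 0 ≤ (M2 - r ^ 2) * (M2 - 2 + r * K) := by
      apply mul_nonneg (by linarith)
      have : 0 ≤ r * K := mul_nonneg (by linarith) hK
      linarith
    nlinarith [a1, a2, hM4]
  have hr4 : 0 ≤ (r ^ 2) ^ 2 := by positivity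
  have hfin := mul_le_mul_of_nonneg_left hbr hr4
  have hid : (r ^ 2) ^ 2 * (- 2 * (r ^ 2) ^ 2 + 2 * r ^ 2)
      - (r - r ^ 2) * (r ^ 2 + r) ^ 2 * (r ^ 2 + K)
      = r ^ 2 * (r ^ 2 - 1) * ((r ^ 2 + r) * (r ^ 2 + K) - 2 * (r ^ 2) ^ 2) := by ring
  linarith

theorem kerdock_core [DecidableEq ι]
    (k : ℕ) (hk : 3 ≤ k) (hι : Fintype.card ι = 4 ^ k) (hV : Fintype.card V = (4 ^ k) ^ 2)
    (p : ι → (V →ₗ[ZMod 2] ZMod 2)) (hp0 : ∀ i, p i ≠ 0)
    (hF : ∀ c, c ≠ 0 → SS p c ≤ 2 ^ k) : False := by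
  classical
  obtain ⟨r, hrdef⟩ : ∃ r : ℤ, r = 2 ^ k := ⟨_, rfl⟩
  have hr8 : 8 ≤ r := by
    rw [hrdef]
    calc (8 : ℤ) = 2 ^ 3 := by norm_num
      _ ≤ 2 ^ k := pow_le_pow_right₀ (by norm_num) hk
  have h4k : ((4 ^ k : ℕ) : ℤ) = r ^ 2 := by
    rw [hrdef]; push_cast
    rw [← pow_mul, mul_comm k 2, pow_mul]; norm_num
  have hιz : (Fintype.card ι : ℤ) = r ^ 2 := by rw [hι, h4k]
  have hVz : (Fintype.card V : ℤ) = (r ^ 2) ^ 2 := by
    rw [hV]; push_cast at h4k ⊢; rw [h4k]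
  rw [← hrdef] at hF
  have hr2 : 64 ≤ r ^ 2 := by nlinarith
  have h8r : 8 * r ≤ r ^ 2 := by nlinarith
  -- Step A
  obtain ⟨c0, hc0, hFc0⟩ : ∃ c0 : V, c0 ≠ 0 ∧ SS p c0 < 2 * r - r ^ 2 := by
    by_contra hcon
    push Not at hcon
    have h1 := lemM r hr8 hιz hVz p hp0 (r ^ 2 - 2 * r) (by linarith)
    have h2 : 0 ≤ ∑ c ∈ (Finset.univ : Finset V).erase 0,
        (r - SS p c) * (SS p c + r) ^ 2 * (SS p c + (r ^ 2 - 2 * r)) := by
      refine Finset.sum_nonneg (fun c hc => ?_)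
      have hc' : c ≠ 0 := Finset.ne_of_mem_erase hc
      have h3 := hF c hc'
      have h4 := hcon c hc'
      exact mul_nonneg (mul_nonneg (by linarith) (sq_nonneg _)) (by linarith)
    have h3 : r ^ 2 * (r ^ 2 - 1) * ((r ^ 2 + r) * (r ^ 2 + (r ^ 2 - 2 * r)) - 2 * (r ^ 2) ^ 2)
        = - (2 * r ^ 2 * (r ^ 2 * (r ^ 2 - 1))) := by ring
    have h4 : 0 < 2 * r ^ 2 * (r ^ 2 * (r ^ 2 - 1)) := by
      apply mul_pos (by linarith)
      apply mul_pos (by linarith) (by linarith)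
    linarith
  obtain ⟨t, ht⟩ : ∃ t : ℤ, t = ∑ i : ι, (if p i c0 = 0 then (1 : ℤ) else 0) := ⟨_, rfl⟩
  have hFt : SS p c0 = 2 * t - r ^ 2 := by
    rw [ht, ← hιz]
    unfold SS
    rw [Finset.mul_sum]
    have h1 : (Fintype.card ι : ℤ) = ∑ i : ι, (1 : ℤ) := by simp
    rw [h1, ← Finset.sum_sub_distrib]
    exact Finset.sum_congr rfl (fun i _ => chi_formula _)
  have ht0 : 0 ≤ t := by
    rw [ht]
    exact Finset.sum_nonneg (fun i _ => by split_ifs <;> norm_num)
  have htr : t ≤ r - 1 := by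
    have : 2 * t < 2 * r := by linarith
    linarith
  have hne : ∀ c : V, c ≠ c0 → c + c0 ≠ 0 := by
    intro c hc h
    apply hc
    have h1 : c + c0 + c0 = c := by rw [add_assoc, add_self_V, add_zero]
    rw [h, zero_add] at h1
    exact h1.symm
  have hlow : ∀ c : V, c ≠ 0 → c ≠ c0 → -(r + 2 * t) ≤ SS p c := by
    intro c _ hc
    have h1 := SS_add_ge p c c0
    have h2 := hF _ (hne c hc)
    rw [hιz, hFt] at h1
    linarith
  -- Step B
  have htz : t = 0 := by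
    by_contra htne
    have ht1 : 1 ≤ t := by omega
    have hG := GG_pos r t hr8 ht1 htr
    unfold GG at hG
    have h1 := lemM r hr8 hιz hVz p hp0 (r + 2 * t) (by linarith)
    have hmem : c0 ∈ (Finset.univ : Finset V).erase 0 :=
      Finset.mem_erase.2 ⟨hc0, Finset.mem_univ _⟩
    have h2 := Finset.add_sum_erase ((Finset.univ : Finset V).erase 0)
      (fun c => (r - SS p c) * (SS p c + r) ^ 2 * (SS p c + (r + 2 * t))) hmem
    have h3 : 0 ≤ ∑ c ∈ ((Finset.univ : Finset V).erase 0).erase c0,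
        (r - SS p c) * (SS p c + r) ^ 2 * (SS p c + (r + 2 * t)) := by
      refine Finset.sum_nonneg (fun c hc => ?_)
      have hc1 : c ≠ c0 := Finset.ne_of_mem_erase hc
      have hc2 : c ≠ 0 := Finset.ne_of_mem_erase (Finset.mem_of_mem_erase hc)
      have h4 := hF c hc2
      have h5 := hlow c hc2 hc1
      exact mul_nonneg (mul_nonneg (by linarith) (sq_nonneg _)) (by linarith)
    simp only [hFt] at h2
    have h4 : (r - (2 * t - r ^ 2)) * (2 * t - r ^ 2 + r) ^ 2 * (2 * t - r ^ 2 + (r + 2 * t))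
        = -((r ^ 2 + r - 2 * t) * (r ^ 2 - r - 2 * t) ^ 2 * (r ^ 2 - r - 4 * t)) := by ring
    rw [h4] at h2
    have h5 : (r ^ 2 + r) * (r ^ 2 + (r + 2 * t)) = (r ^ 2 + r) * (r ^ 2 + r + 2 * t) := by ring
    rw [h5] at h1
    linarith
  have hp1 : ∀ i, p i c0 = 1 := by
    intro i
    rw [htz] at ht
    have h1 := (Finset.sum_eq_zero_iff_of_nonneg
      (s := (Finset.univ : Finset ι)) (f := fun i => if p i c0 = 0 then (1 : ℤ) else 0)
      (fun i _ => by split_ifs <;> norm_num)).1 ht.symm i (Finset.mem_univ _)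
    have h2 : p i c0 ≠ 0 := by
      intro h
      simp only [h, if_true] at h1
      exact one_ne_zero h1
    have : ∀ a : ZMod 2, a ≠ 0 → a = 1 := by decide
    exact this _ h2
  have hneg : ∀ c, SS p (c + c0) = - SS p c := by
    intro c
    unfold SS
    rw [← Finset.sum_neg_distrib]
    refine Finset.sum_congr rfl (fun i _ => ?_)
    rw [map_add, chi_add, hp1, chi_one]; ring
  obtain ⟨_, h2, _, h4⟩ := pow_sums (r ^ 2) hVz p hp0
  have hM2 := Mz2_ge p
  have hM4 := Mz4_ge p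
  rw [hιz] at hM2 hM4
  have hkey : Mz (addF (addF p p) (addF p p)) ≤
      r ^ 2 * Mz (addF p p) - 2 * r ^ 2 + 2 * (r ^ 2) ^ 2 := by
    have hs : ∑ c : V, SS p c ^ 2 * (r ^ 2 - SS p c ^ 2)
        = (r ^ 2) ^ 2 * (r ^ 2 * Mz (addF p p) - Mz (addF (addF p p) (addF p p))) := by
      have e1 : ∀ c : V, SS p c ^ 2 * (r ^ 2 - SS p c ^ 2)
          = r ^ 2 * SS p c ^ 2 - SS p c ^ 4 := by intro c; ring
      rw [Finset.sum_congr rfl (fun c _ => e1 c), Finset.sum_sub_distrib, ← Finset.mul_sum, h2, h4]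
      ring
    have hmem : c0 ∈ (Finset.univ : Finset V).erase 0 :=
      Finset.mem_erase.2 ⟨hc0, Finset.mem_univ _⟩
    have g1 := Finset.add_sum_erase (Finset.univ : Finset V)
      (fun c => SS p c ^ 2 * (r ^ 2 - SS p c ^ 2)) (Finset.mem_univ 0)
    have g2 := Finset.add_sum_erase ((Finset.univ : Finset V).erase 0)
      (fun c => SS p c ^ 2 * (r ^ 2 - SS p c ^ 2)) hmem
    have g3 : 0 ≤ ∑ c ∈ ((Finset.univ : Finset V).erase 0).erase c0,
        SS p c ^ 2 * (r ^ 2 - SS p c ^ 2) := by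
      refine Finset.sum_nonneg (fun c hc => ?_)
      have hc1 : c ≠ c0 := Finset.ne_of_mem_erase hc
      have hc2 : c ≠ 0 := Finset.ne_of_mem_erase (Finset.mem_of_mem_erase hc)
      have h5 := hF c hc2
      have h6 := hF _ (hne c hc1)
      rw [hneg] at h6
      refine mul_nonneg (sq_nonneg _) ?_
      nlinarith
    simp only [SS_zero, hιz] at g1
    simp only [hFt, htz] at g2
    rw [hs] at g1
    have g4 : (r ^ 2) ^ 2 * (2 * (r ^ 2 - (r ^ 2) ^ 2)) ≤
        (r ^ 2) ^ 2 * (r ^ 2 * Mz (addF p p) - Mz (addF (addF p p) (addF p p))) := by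
      nlinarith [g1, g2, g3]
    have g5 : 0 < (r ^ 2) ^ 2 := by positivity
    have g6 := le_of_mul_le_mul_left g4 g5
    linarith
  have hM2eq : Mz (addF p p) = r ^ 2 := by
    apply le_antisymm _ hM2
    by_contra hgt
    push Not at hgt
    have : 0 < (Mz (addF p p) - r ^ 2) * (Mz (addF p p) - 2) :=
      mul_pos (by linarith) (by linarith)
    nlinarith
  have hinj : Function.Injective p := Mz2_inj p (by rw [hM2eq, hιz])
  have heq := lowb_eq_of_eq p (by rw [hιz, hM2eq]; rw [hM2eq] at hkey; linarith)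
  have hp2' : ∀ i j, i ≠ j → p i + p j ≠ 0 := by
    intro i j hij h
    apply hij
    apply hinj
    have h1 : p i + p j + p j = p i := by rw [add_assoc, dual_add_self, add_zero]
    rw [h, zero_add] at h1
    exact h1.symm
  have hpt2 : ∀ t : Finset ι, t.card = 2 → ∑ i ∈ t, p i ≠ 0 := by
    intro t htc
    obtain ⟨i, j, hij, rfl⟩ := Finset.card_eq_two.1 htc
    rw [Finset.sum_pair hij]
    exact hp2' i j hij
  have hpt4 : ∀ t : Finset ι, t.card = 4 → ∑ i ∈ t, p i ≠ 0 := by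
    intro t htc hsum
    obtain ⟨i, j, l, m, hij, hil, him, hjl, hjm, hlm, rfl⟩ := Finset.card_eq_four.1 htc
    have h1 : p i + p j + (p l + p m) = 0 := by
      rw [← hsum, Finset.sum_insert, Finset.sum_insert, Finset.sum_pair hlm, add_assoc]
      · simp [hjl, hjm]
      · simp [hij, hil, him]
    have h3 := heq (i, j) (l, m)
    have h4 : addF (addF p p) (addF p p) ((i, j), (l, m)) = 0 := h1
    rw [if_pos h4] at h3
    unfold lowb at h3
    have h5 : ¬ (addF p p (i, j) = 0) := hp2' i j hij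
    have h6 : ¬ ((l, m) = (i, j)) := by
      intro h; exact hil (congrArg Prod.fst h).symm
    have h7 : ¬ ((l, m) = (i, j).swap) := by
      intro h; exact him (congrArg Prod.snd h).symm
    rw [if_neg h5, if_neg h6, if_neg h7] at h3
    norm_num at h3
  -- apply Lemma A
  have hcardι : 0 < Fintype.card ι := by rw [hι]; positivity
  obtain ⟨i0⟩ : Nonempty ι := Fintype.card_pos_iff.1 hcardι
  let ev : (V →ₗ[ZMod 2] ZMod 2) →ₗ[ZMod 2] ZMod 2 := LinearMap.applyₗ c0
  have hev : ∀ q, ev q = q c0 := fun q => rfl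
  let Q : Submodule (ZMod 2) (V →ₗ[ZMod 2] ZMod 2) := LinearMap.ker ev
  have hsurj : Function.Surjective ev := by
    intro a
    refine ⟨a • p i0, ?_⟩
    rw [map_smul, hev, hp1]; simp
  have : Module.Finite (ZMod 2) V := Module.Finite.of_finite
  have : Finite (V →ₗ[ZMod 2] ZMod 2) :=
    Finite.of_injective (fun q : (V →ₗ[ZMod 2] ZMod 2) => (q : V → ZMod 2)) DFunLike.coe_injective
  have : Fintype Q := Fintype.ofFinite _
  have hcQ : 2 * Fintype.card Q ≤ (4 ^ k) ^ 2 := by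
    have h5 : Fintype.card V = 2 ^ Module.finrank (ZMod 2) V := by
      have := Module.card_eq_pow_finrank (K := ZMod 2) (V := V)
      simpa using this
    have h6 : Fintype.card Q = 2 ^ Module.finrank (ZMod 2) Q := by
      have := Module.card_eq_pow_finrank (K := ZMod 2) (V := Q)
      simpa using this
    have h7 := LinearMap.finrank_range_add_finrank_ker ev
    rw [LinearMap.range_eq_top.2 hsurj, finrank_top] at h7
    have h8 : Module.finrank (ZMod 2) (V →ₗ[ZMod 2] ZMod 2) = Module.finrank (ZMod 2) V :=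
      Subspace.dual_finrank_eq
    rw [h8] at h7
    rw [Module.finrank_self] at h7
    rw [← hV, h5, h6, ← h7]
    rw [pow_add, pow_one]
  let p' : ι → Q := fun i => ⟨p i + p i0, by
    rw [LinearMap.mem_ker, hev, LinearMap.add_apply, hp1, hp1]; decide⟩
  have hsum' : ∀ t : Finset ι, Even t.card →
      ((∑ i ∈ t, p' i : Q) : V →ₗ[ZMod 2] ZMod 2) = ∑ i ∈ t, p i := by
    intro t htev
    rw [Submodule.coe_sum]
    have h5 : ∀ i, ((p' i : Q) : V →ₗ[ZMod 2] ZMod 2) = p i + p i0 := fun i => rfl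
    rw [Finset.sum_congr rfl (fun i _ => h5 i), Finset.sum_add_distrib, Finset.sum_const]
    obtain ⟨w, hw⟩ := htev
    rw [hw, ← two_mul, mul_comm, mul_smul, two_smul, dual_add_self, smul_zero, add_zero]
  refine lemA (Q := Q) (fun q => ?_) k (by omega) hι hcQ p' ?_ ?_
  · exact add_self_V q
  · intro t htc h
    refine hpt2 t htc ?_
    rw [← hsum' t (by rw [htc]; decide), h]; rfl
  · intro t htc h
    refine hpt4 t htc ?_
    rw [← hsum' t (by rw [htc]; decide), h]; rfl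

end Pool.Agent.H25R3.Kerdock
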